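import Pool.Agent.MP_ea150c_mp.H83.Trans

/-! The point count of the graph hypersurface of the complete graph on four vertices. -/

namespace Pool.Agent.MP_ea150c_mp.H15

open Finset H20

/-- The determinant of the symmetric matrix with first row `x` and lower block `y`. -/
def dt {F : Type} [Field F] (y x : F × F × F) : F :=
  x.1 * (y.1 * y.2.2 - y.2.1 ^ 2) -
    (x.2.1 ^ 2 * y.2.2 - 2 * x.2.1 * x.2.2 * y.2.1 + x.2.2 ^ 2 * y.1)

theorem card_two {F : Type} [Fintype F] (P : F × F × F → Prop) (g : F × F → F × F × F)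
    (hg : Function.Injective g) (h : ∀ x, P x ↔ ∃ u, g u = x) :
    Nat.card {x // P x} = Fintype.card F ^ 2 := by
  rw [Nat.card_congr (Equiv.subtypeEquivRight h : _ ≃ Set.range g),
    Nat.card_range_of_injective hg]
  simp [sq]

theorem card_dt {F : Type} [Field F] [Fintype F] (y : F × F × F) (hy : y ≠ 0) :
    Nat.card {x // dt y x = 0} = Fintype.card F ^ 2 := by
  obtain ⟨d, e, f⟩ := y
  by_cases h : d * f - e ^ 2 = 0
  · by_cases hd : d = 0
    · subst hd
      obtain rfl : e = 0 := by simpa using h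
      have hf : f ≠ 0 := fun hf => hy (by simp [hf])
      refine card_two _ (fun u => (u.1, 0, u.2)) (fun u v huv => ?_) fun ⟨a, b, c⟩ => ?_
      · simpa [Prod.ext_iff] using huv
      · simp [dt, hf, @eq_comm _ (0 : F)]
    · refine card_two _ (fun u => (u.1, u.2, u.2 * e / d)) (fun u v huv => ?_) fun ⟨a, b, c⟩ => ?_
      · simp only [Prod.ext_iff] at huv ⊢
        exact ⟨huv.1, huv.2.1⟩
      · have h1 : d * dt (d, e, f) (a, b, c) = -(b * e - c * d) ^ 2 := by
          simp only [dt]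
          linear_combination (d * a - b ^ 2) * h
        rw [← mul_eq_zero_iff_left hd, h1]
        simp [sub_eq_zero, div_eq_iff hd]
  · refine card_two _ (fun u => ((u.1 ^ 2 * f - 2 * u.1 * u.2 * e + u.2 ^ 2 * d) / (d * f - e ^ 2),
      u.1, u.2)) (fun u v huv => ?_) fun ⟨a, b, c⟩ => ?_
    · simp only [Prod.ext_iff] at huv ⊢
      exact huv.2
    · rw [dt, sub_eq_zero, ← eq_div_iff h, eq_comm]
      simp

theorem card_all (F : Type) [Field F] [Fintype F] :
    (Nat.card {p : (F × F × F) × F × F × F // dt p.1 p.2 = 0} : ℤ) =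
      (Fintype.card F : ℤ) ^ 5 + (Fintype.card F : ℤ) ^ 3 - (Fintype.card F : ℤ) ^ 2 := by
  classical
  rw [Nat.card_congr (Equiv.subtypeProdEquivSigmaSubtype fun y x : F × F × F => dt y x = 0),
    Nat.card_sigma, ← add_sum_erase _ _ (mem_univ 0),
    sum_congr rfl fun y hy => card_dt y (ne_of_mem_erase hy)]
  have h : 1 ≤ Fintype.card (F × F × F) := Fintype.card_pos
  simp only [sum_const, card_erase_of_mem (mem_univ _), card_univ, smul_eq_mul]
  push_cast [Nat.cast_sub h]
  simp [dt]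
  ring

theorem conn_iff {V E : Type} [Fintype V] [DecidableEq V] (s t : E → V) (T : Finset E) :
    Conn s t T ↔ ∀ W : Finset V, (∀ e ∈ T, s e ∈ W ↔ t e ∈ W) → ∀ u v, u ∈ W ↔ v ∈ W := by
  classical
  refine ⟨fun h W hW u v => ?_, fun h u v => ?_⟩
  · induction h u v with
    | rel a b h =>
      obtain ⟨e, he, rfl, rfl⟩ := h
      exact hW e he
    | refl a => rfl
    | symm a b _ ih => exact ih.symm
    | trans a b c _ _ ih ih' => exact ih.trans ih'
  · have := h (univ.filter fun v => Relation.EqvGen (fun a b => ∃ e ∈ T, s e = a ∧ t e = b) u v)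
      (fun e he => ?_) u v
    · simpa [Relation.EqvGen.refl] using this
    · have h1 : Relation.EqvGen (fun a b => ∃ e ∈ T, s e = a ∧ t e = b) (s e) (t e) :=
        .rel _ _ ⟨e, he, rfl, rfl⟩
      simp only [mem_filter, mem_univ, true_and]
      exact ⟨fun h => .trans _ _ _ h h1, fun h => .trans _ _ _ h (.symm _ _ h1)⟩

theorem xg_edge {V E E' : Type} [Fintype V] [DecidableEq V] [Fintype E] [DecidableEq E]
    [Fintype E'] [DecidableEq E'] (s t : E → V) (s' t' : E' → V) (σ : E ≃ E')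
    (h : ∀ e, s(s e, t e) = s(s' (σ e), t' (σ e))) (F : Type) [Field F] :
    XG s t F = XG s' t' F := by
  refine Nat.card_congr (Equiv.subtypeEquiv (σ.arrowCongr (Equiv.refl F)) fun α => ?_)
  refine Eq.congr_left ?_
  unfold Psi
  refine sum_equiv σ.finsetCongr (fun T => ?_) fun T _ => ?_
  · simp only [mem_filter, mem_univ, true_and, IsTree, conn_iff, Equiv.finsetCongr_apply,
      card_map, forall_mem_map, Equiv.coe_toEmbedding]
    refine and_congr_left' (forall_congr' fun W => imp_congr_left (forall₂_congr fun e _ => ?_))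
    rcases Sym2.eq_iff.1 (h e) with ⟨h1, h2⟩ | ⟨h1, h2⟩ <;> rw [h1, h2]
    exact Iff.comm
  · exact prod_equiv σ (by simp) (by simp)

/-- The standard complete graph. -/
def s0 : Fin 6 → Fin 4 := ![0, 0, 0, 1, 1, 2]

/-- The standard complete graph. -/
def t0 : Fin 6 → Fin 4 := ![1, 2, 3, 2, 3, 3]

/-- The complements of the spanning trees. -/
def co : Fin 16 → Fin 6 × Fin 6 × Fin 6 :=
  ![(0, 1, 3), (0, 1, 4), (0, 1, 5), (0, 2, 3), (0, 2, 4), (0, 2, 5), (0, 3, 5), (0, 4, 5),
    (1, 2, 3), (1, 2, 4), (1, 2, 5), (1, 3, 4), (1, 4, 5), (2, 3, 4), (2, 3, 5), (3, 4, 5)]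

/-- The spanning trees. -/
def tr (i : Fin 16) : Finset (Fin 6) := {(co i).1, (co i).2.1, (co i).2.2}ᶜ

theorem trees : ∀ T : Finset (Fin 6), ((∀ W : Finset (Fin 4),
    (∀ e ∈ T, s0 e ∈ W ↔ t0 e ∈ W) → ∀ u v, u ∈ W ↔ v ∈ W) ∧ T.card + 1 = 4) ↔
    T ∈ univ.image tr := by
  decide +kernel

theorem psi0 {F : Type} [Field F] (α : Fin 6 → F) : Psi s0 t0 α =
    dt (α 1 + α 5 + α 2, -α 2, α 2 + α 4 + α 0) (α 0 + α 3 + α 1, -α 1, -α 0) := by
  have h1 : ∀ i, ∏ e ∈ (tr i)ᶜ, α e = α (co i).1 * (α (co i).2.1 * α (co i).2.2) := fun i => by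
    rw [tr, compl_compl, prod_insert (by revert i; decide), prod_pair (by revert i; decide)]
  have h2 : Function.Injective tr := by decide +kernel
  unfold Psi
  rw [sum_congr (s₂ := univ.image tr) (by
    ext T
    simp only [← trees, mem_filter, IsTree, conn_iff, mem_univ, true_and, Fintype.card_fin])
    fun _ _ => rfl, sum_image h2.injOn]
  simp [h1, Fin.sum_univ_succ, co, dt]
  ring

theorem xg0 (F : Type) [Field F] :
    XG s0 t0 F = Nat.card {p : (F × F × F) × F × F × F // dt p.1 p.2 = 0} := by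
  let φ : (Fin 6 → F) ≃ (F × F × F) × F × F × F :=
    { toFun := fun α => ((α 1 + α 5 + α 2, -α 2, α 2 + α 4 + α 0), (α 0 + α 3 + α 1, -α 1, -α 0))
      invFun := fun p => ![-p.2.2.2, -p.2.2.1, -p.1.2.1, p.2.1 + p.2.2.1 + p.2.2.2,
        p.1.2.2 + p.1.2.1 + p.2.2.2, p.1.1 + p.2.2.1 + p.1.2.1]
      left_inv := fun α => by
        funext i
        fin_cases i <;> simp <;> ring
      right_inv := fun p => by
        ext <;> simp <;> ring }
  exact Nat.card_congr (Equiv.subtypeEquiv φ fun α => by rw [psi0]; rfl)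

theorem xgK4 {V E : Type} [Fintype V] [DecidableEq V] [Fintype E] [DecidableEq E] (s t : E → V)
    (h : H20.GoodG s t) (h4 : Fintype.card V ≤ 4) (F : Type) [Field F] [Fintype F] :
    (H20.XG s t F : ℤ) =
      (Fintype.card F : ℤ) ^ 5 + (Fintype.card F : ℤ) ^ 3 - (Fintype.card F : ℤ) ^ 2 := by
  have h1 : ∑ _v : V, 3 ≤ ∑ v, deg s t v :=
    sum_le_sum fun v _ => by rcases h.degs v with e | e <;> omega
  rw [H83.sum_deg, sum_const, card_univ, smul_eq_mul] at h1
  have h2 := h.card
  let φ : V ≃ Fin 4 := Fintype.equivOfCardEq (by simp; omega)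
  have h3 : ∀ a b : Fin 4, a ≠ b → ∃ i, s(a, b) = s(s0 i, t0 i) := by decide
  choose f hf using fun e => h3 (φ (s e)) (φ (t e)) fun he => h.noloop e (φ.injective he)
  have h5 : Function.Bijective f := by
    refine (Fintype.bijective_iff_injective_and_card f).2 ⟨fun e e' he => h.simple e e' ?_,
      by simp; omega⟩
    have := (hf e).trans (he ▸ (hf e').symm)
    simpa only [Sym2.eq_iff, φ.injective.eq_iff] using this
  rw [← H83.xg_map φ, xg_edge (φ ∘ s) (φ ∘ t) s0 t0 (Equiv.ofBijective f h5) hf, xg0, card_all]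

end Pool.Agent.MP_ea150c_mp.H15
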