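import Pool.Agent.MP_ea150c_mp.H49.SpecK

/-! Untwisted facts on toric rings. -/

set_option linter.unusedSectionVars false

namespace Pool.Agent.MP_ea150c_mp.H15

open Pool.Agent.MP_ea150c_mp.H49

section Basic
variable {Λ : Type} [CommRing Λ] {σ : Type} (tor : σ → Bool)

theorem monoZ_mem {u : σ → ℤ} (h : u ∈ Mon tor) :
    monoZ tor Λ u = AddMonoidAlgebra.single ⟨u, h⟩ 1 := dif_pos h

theorem monoZ_not {u : σ → ℤ} (h : u ∉ Mon tor) : monoZ tor Λ u = 0 := dif_neg h

theorem monoZ_zero : monoZ tor Λ 0 = 1 := monoZ_mem tor (Mon tor).zero_mem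

theorem monoZ_mul {u v : σ → ℤ} (hu : u ∈ Mon tor) (hv : v ∈ Mon tor) :
    monoZ tor Λ u * monoZ tor Λ v = monoZ tor Λ (u + v) := by
  rw [monoZ_mem tor hu, monoZ_mem tor hv, monoZ_mem tor ((Mon tor).add_mem hu hv),
    AddMonoidAlgebra.single_mul_single, one_mul]
  rfl

theorem monoZ_pow {u : σ → ℤ} (hu : u ∈ Mon tor) (n : ℕ) :
    monoZ tor Λ u ^ n = monoZ tor Λ (n • u) := by
  rw [monoZ_mem tor hu, monoZ_mem tor ((Mon tor).nsmul_mem hu n), AddMonoidAlgebra.single_pow,
    one_pow]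
  rfl

/-- Induction over the monomials that occur in an element. -/
theorem supp_ind {P : (σ → ℤ) → Prop} {Q : Tor Λ tor → Prop} (h0 : Q 0)
    (hadd : ∀ a b, Q a → Q b → Q (a + b))
    (hm : ∀ (c : Λ) u, u ∈ Mon tor → P u → Q (c • monoZ tor Λ u)) {a : Tor Λ tor}
    (ha : ∀ u : Mon tor, a.coeff u ≠ 0 → P u.1) : Q a := by
  rw [← AddMonoidAlgebra.sum_coeff_single a, Finsupp.sum]
  refine Finset.sum_induction _ Q hadd h0 fun u hu => ?_
  have := hm (a.coeff u) u.1 u.2 (ha u (Finsupp.mem_support_iff.1 hu))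
  rwa [monoZ_mem tor u.2, AddMonoidAlgebra.smul_single, smul_eq_mul, mul_one] at this

theorem mono_ind {Q : Tor Λ tor → Prop} (h0 : Q 0) (hadd : ∀ a b, Q a → Q b → Q (a + b))
    (hm : ∀ (c : Λ) u, u ∈ Mon tor → Q (c • monoZ tor Λ u)) (a : Tor Λ tor) : Q a :=
  supp_ind tor (P := fun _ => True) h0 hadd (fun c u hu _ => hm c u hu) fun _ _ => trivial

variable [DecidableEq σ]

theorem linOf_mono {B : Type} [AddCommGroup B] [Module Λ B] (g : (σ → ℤ) → B) {u : σ → ℤ}
    (hu : u ∈ Mon tor) : linOf tor g (monoZ tor Λ u) = g u := by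
  rw [monoZ_mem tor hu]
  simp [linOf]

theorem monoZ_supp {P : (σ → ℤ) → Prop} {u : σ → ℤ} (h : u ∈ Mon tor → P u) :
    monoZ tor Λ u ∈ supp tor Λ P := by
  by_cases hu : u ∈ Mon tor
  · intro v hv
    rw [monoZ_mem tor hu, AddMonoidAlgebra.coeff_single] at hv
    have : v = ⟨u, hu⟩ := by
      by_contra hc
      exact hv (Finsupp.single_eq_of_ne hc)
    rw [this]
    exact h hu
  · rw [monoZ_not tor hu]
    exact Submodule.zero_mem _

theorem map_supp {B : Type} [AddCommGroup B] [Module Λ B] (L : Tor Λ tor →ₗ[Λ] B)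
    (N : Submodule Λ B) {P : (σ → ℤ) → Prop}
    (h : ∀ u, u ∈ Mon tor → P u → L (monoZ tor Λ u) ∈ N) {a : Tor Λ tor}
    (ha : a ∈ supp tor Λ P) : L a ∈ N := by
  refine supp_ind tor (Q := fun a => L a ∈ N) (by simp) (fun a b h1 h2 => ?_)
    (fun c u hu hP => ?_) ha
  · rw [map_add]; exact N.add_mem h1 h2
  · rw [map_smul]; exact N.smul_mem c (h u hu hP)

theorem pd_mono (i : σ) {u : σ → ℤ} (hu : u ∈ Mon tor) :
    pd tor Λ i (monoZ tor Λ u) = (u i : Λ) • monoZ tor Λ (u - Pi.single i 1) :=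
  linOf_mono tor _ hu

theorem sub_mem_or (i : σ) {u : σ → ℤ} (hu : u ∈ Mon tor) :
    u - Pi.single i 1 ∈ Mon tor ∨ u i = 0 := by
  by_cases h : u i = 0
  · exact Or.inr h
  · refine Or.inl fun l hl => ?_
    have := hu l hl
    by_cases hli : l = i
    · subst hli; simp; omega
    · simpa [Pi.single_apply, hli] using this

theorem phi0_mono (p : ℕ) {u : σ → ℤ} (hu : u ∈ Mon tor) :
    phi0 tor Λ p (monoZ tor Λ u) = monoZ tor Λ (p • u) := by
  rw [monoZ_mem tor hu, monoZ_mem tor ((Mon tor).nsmul_mem hu p)]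
  simp only [phi0, AddMonoidAlgebra.mapDomainAlgHom_apply, AddMonoidAlgebra.mapDomain_single]
  rfl

open Classical in
theorem psi0_mono (p : ℕ) {u : σ → ℤ} (hu : u ∈ Mon tor) :
    psi0 tor Λ p (monoZ tor Λ u) =
      if ∀ i, (p : ℤ) ∣ u i + 1 then monoZ tor Λ (fun i => (u i + 1) / p - 1) else 0 :=
  linOf_mono tor _ hu

omit [DecidableEq σ] in
theorem quo_nonneg {p : ℕ} (hp : 1 ≤ p) {a : ℤ} (ha : 0 ≤ a) (h : (p : ℤ) ∣ a + 1) :
    0 ≤ (a + 1) / p - 1 := by
  obtain ⟨k, hk⟩ := h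
  have hp0 : (p : ℤ) ≠ 0 := by omega
  rw [hk, Int.mul_ediv_cancel_left _ hp0]
  by_contra hc
  have h1 : k ≤ 0 := by omega
  have h2 : (p : ℤ) * k ≤ 0 := mul_nonpos_of_nonneg_of_nonpos (by omega) h1
  omega

omit [DecidableEq σ] in
theorem quo_mem {p : ℕ} (hp : 1 ≤ p) {u : σ → ℤ} (hu : u ∈ Mon tor)
    (h : ∀ i, (p : ℤ) ∣ u i + 1) : (fun i => (u i + 1) / p - 1) ∈ Mon tor :=
  fun i hi => quo_nonneg hp (hu i hi) (h i)

theorem dm_mul (i : σ) {u v : σ → ℤ} (hu : u ∈ Mon tor) (hv : v ∈ Mon tor) :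
    ((u i : Λ) • monoZ tor Λ (u - Pi.single i 1)) * monoZ tor Λ v =
      (u i : Λ) • monoZ tor Λ (u + v - Pi.single i 1) := by
  rcases sub_mem_or tor i hu with h | h
  · rw [smul_mul_assoc, monoZ_mul tor h hv]
    congr 2
    abel
  · simp [h]

theorem leibniz (i : σ) (a b : Tor Λ tor) :
    pd tor Λ i (a * b) = pd tor Λ i a * b + a * pd tor Λ i b := by
  induction a using mono_ind with
  | h0 => simp
  | hadd a a' h1 h2 => rw [add_mul, map_add, map_add, h1, h2]; ring
  | hm c u hu =>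
    induction b using mono_ind with
    | h0 => simp
    | hadd b b' h1 h2 => rw [mul_add, map_add, map_add, h1, h2]; ring
    | hm d v hv =>
      have key : pd tor Λ i (monoZ tor Λ u * monoZ tor Λ v) =
          pd tor Λ i (monoZ tor Λ u) * monoZ tor Λ v +
            monoZ tor Λ u * pd tor Λ i (monoZ tor Λ v) := by
        rw [monoZ_mul tor hu hv, pd_mono tor i ((Mon tor).add_mem hu hv), pd_mono tor i hu,
          pd_mono tor i hv, dm_mul tor i hu hv, mul_comm (monoZ tor Λ u), dm_mul tor i hv hu,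
          add_comm v u, ← add_smul]
        simp
      simp only [smul_mul_assoc, mul_smul_comm, map_smul, key, smul_add]

theorem single_mem' (i : σ) : (Pi.single i 1 : σ → ℤ) ∈ Mon tor := by
  intro l _
  by_cases h : l = i
  · subst h; simp
  · simp [h]

theorem pd_tX (i l : σ) : pd tor Λ i (tX tor Λ l) = if i = l then 1 else 0 := by
  rw [tX, pd_mono tor i (single_mem' tor l)]
  split_ifs with h
  · subst h; simp [monoZ_zero]
  · simp [h]

theorem pd_pd_mono (i l : σ) {u : σ → ℤ} (hu : u ∈ Mon tor) :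
    pd tor Λ i (pd tor Λ l (monoZ tor Λ u)) =
      ((u l * (u - Pi.single l 1 : σ → ℤ) i : ℤ) : Λ) •
        monoZ tor Λ (u - Pi.single l 1 - Pi.single i 1) := by
  rw [pd_mono tor l hu, map_smul]
  rcases sub_mem_or tor l hu with h | h
  · rw [pd_mono tor i h, smul_smul, Int.cast_mul]
  · simp [h]

theorem pd_comm (i l : σ) (a : Tor Λ tor) :
    pd tor Λ i (pd tor Λ l a) = pd tor Λ l (pd tor Λ i a) := by
  induction a using mono_ind with
  | h0 => simp
  | hadd a a' h1 h2 => simp only [map_add, h1, h2]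
  | hm c u hu =>
    simp only [map_smul]
    by_cases h : i = l
    · rw [h]
    · rw [pd_pd_mono tor i l hu, pd_pd_mono tor l i hu, sub_right_comm]
      simp [h, Ne.symm h, mul_comm]

theorem phi0_tX (p : ℕ) (i : σ) : phi0 tor Λ p (tX tor Λ i) = tX tor Λ i ^ p := by
  rw [tX, phi0_mono tor p (single_mem' tor i), monoZ_pow tor (single_mem' tor i)]

theorem natCast_mul (p : ℕ) (z : Tor Λ tor) : (p : Tor Λ tor) * z = (p : Λ) • z := by
  rw [Algebra.smul_def, map_natCast]

theorem pd_phi0 {p : ℕ} (hp : 1 ≤ p) (i : σ) (a : Tor Λ tor) :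
    pd tor Λ i (phi0 tor Λ p a) =
      (p : Tor Λ tor) * tX tor Λ i ^ (p - 1) * phi0 tor Λ p (pd tor Λ i a) := by
  induction a using mono_ind with
  | h0 => simp
  | hadd a a' h1 h2 => simp only [map_add, h1, h2, mul_add]
  | hm c u hu =>
    simp only [map_smul, mul_smul_comm]
    congr 1
    rw [phi0_mono tor p hu, pd_mono tor i ((Mon tor).nsmul_mem hu p), pd_mono tor i hu, map_smul,
      mul_assoc, natCast_mul]
    rcases sub_mem_or tor i hu with h | h
    · rw [phi0_mono tor p h, tX, monoZ_pow tor (single_mem' tor i), mul_smul_comm,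
        monoZ_mul tor ((Mon tor).nsmul_mem (single_mem' tor i) _) ((Mon tor).nsmul_mem h _),
        smul_smul]
      have e : p • u - Pi.single i 1 =
          (p - 1) • (Pi.single i 1 : σ → ℤ) + p • (u - Pi.single i 1) := by
        obtain ⟨q, rfl⟩ : ∃ q, p = q + 1 := ⟨p - 1, by omega⟩
        rw [Nat.add_sub_cancel, smul_sub, add_smul q 1 (Pi.single i 1 : σ → ℤ), one_smul]
        abel
      rw [e]
      simp
    · simp [h]

theorem psi0_phi0 {p : ℕ} (hp : 1 ≤ p) (a b : Tor Λ tor) :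
    psi0 tor Λ p (phi0 tor Λ p a * b) = a * psi0 tor Λ p b := by
  induction a using mono_ind with
  | h0 => simp
  | hadd a a' h1 h2 => simp only [map_add, add_mul, h1, h2]
  | hm c u hu =>
    induction b using mono_ind with
    | h0 => simp
    | hadd b b' h1 h2 => simp only [map_add, mul_add, h1, h2]
    | hm d v hv =>
      simp only [map_smul, smul_mul_assoc, mul_smul_comm]
      congr 2
      have hpu := (Mon tor).nsmul_mem hu p
      have hp0 : (p : ℤ) ≠ 0 := by omega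
      rw [phi0_mono tor p hu, monoZ_mul tor hpu hv, psi0_mono tor p ((Mon tor).add_mem hpu hv),
        psi0_mono tor p hv]
      have e : ∀ i, (p • u + v) i + 1 = v i + 1 + p * u i := fun i => by simp; ring
      have hc : (∀ i, (p : ℤ) ∣ (p • u + v) i + 1) ↔ ∀ i, (p : ℤ) ∣ v i + 1 :=
        forall_congr' fun i => by rw [e]; exact dvd_add_left (dvd_mul_right _ _)
      by_cases h : ∀ i, (p : ℤ) ∣ v i + 1
      · rw [if_pos (hc.2 h), if_pos h, monoZ_mul tor hu (quo_mem tor hp hv h)]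
        congr 1
        funext i
        rw [e, Int.add_mul_ediv_left _ _ hp0]
        simp only [Pi.add_apply]
        ring
      · rw [if_neg (fun h' => h (hc.1 h')), if_neg h, mul_zero]

theorem psi0_pd {p : ℕ} (hp : 1 ≤ p) (i : σ) (b : Tor Λ tor) :
    psi0 tor Λ p (pd tor Λ i b) =
      (p : Tor Λ tor) * pd tor Λ i (psi0 tor Λ p (tX tor Λ i ^ (p - 1) * b)) := by
  induction b using mono_ind with
  | h0 => simp
  | hadd b b' h1 h2 => simp only [map_add, mul_add, h1, h2]
  | hm d v hv =>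
    simp only [map_smul, mul_smul_comm]
    congr 1
    have hp0 : (p : ℤ) ≠ 0 := by omega
    have h1 := (Mon tor).nsmul_mem (single_mem' tor i) (p - 1)
    have h2 := (Mon tor).add_mem h1 hv
    rw [pd_mono tor i hv, map_smul, tX, monoZ_pow tor (single_mem' tor i), monoZ_mul tor h1 hv,
      psi0_mono tor p h2, natCast_mul]
    have e : ∀ l, ((p - 1) • (Pi.single i 1 : σ → ℤ) + v) l + 1 =
        (v - Pi.single i 1 : σ → ℤ) l + 1 + p * (Pi.single i 1 : σ → ℤ) l := fun l => by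
      rw [Pi.add_apply, Pi.smul_apply, Pi.sub_apply, nsmul_eq_mul, Nat.cast_sub hp, Nat.cast_one]
      ring
    have hc : (∀ l, (p : ℤ) ∣ ((p - 1) • (Pi.single i 1 : σ → ℤ) + v) l + 1) ↔
        ∀ l, (p : ℤ) ∣ (v - Pi.single i 1 : σ → ℤ) l + 1 :=
      forall_congr' fun l => by rw [e]; exact dvd_add_left (dvd_mul_right _ _)
    by_cases h : ∀ l, (p : ℤ) ∣ ((p - 1) • (Pi.single i 1 : σ → ℤ) + v) l + 1
    · rw [if_pos h, pd_mono tor i (quo_mem tor hp h2 h), smul_smul]
      have e1 : (p : ℤ) * ((((p - 1) • (Pi.single i 1 : σ → ℤ) + v) i + 1) / p - 1) = v i := by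
        rw [mul_sub, Int.mul_ediv_cancel' (h i), e]
        simp
      have e2 : (p : Λ) * ((((((p - 1) • (Pi.single i 1 : σ → ℤ) + v) i + 1) / p - 1 : ℤ)) : Λ) =
          (v i : Λ) := by rw [← e1, Int.cast_mul, Int.cast_natCast]
      rw [e2]
      rcases sub_mem_or tor i hv with h3 | h3
      · rw [psi0_mono tor p h3, if_pos (hc.1 h)]
        congr 2
        funext l
        change _ = (((p - 1) • (Pi.single i 1 : σ → ℤ) + v) l + 1) / p - 1 -
          (Pi.single i 1 : σ → ℤ) l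
        rw [e, Int.add_mul_ediv_left _ _ hp0]
        ring
      · simp [h3]
    · rw [if_neg h, map_zero, smul_zero]
      rcases sub_mem_or tor i hv with h3 | h3
      · rw [psi0_mono tor p h3, if_neg (fun h' => h (hc.2 h')), smul_zero]
      · simp [h3]

section Map
variable {Λ' : Type} [CommRing Λ'] (g : Λ →+* Λ')

omit [DecidableEq σ] in
theorem tmap_mono (u : σ → ℤ) : tmap tor g (monoZ tor Λ u) = monoZ tor Λ' u := by
  by_cases hu : u ∈ Mon tor
  · rw [monoZ_mem tor hu, monoZ_mem tor hu, tmap, AddMonoidAlgebra.mapRingHom_single, map_one]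
  · rw [monoZ_not tor hu, monoZ_not tor hu, map_zero]

omit [DecidableEq σ] in
theorem tmap_smul (c : Λ) (z : Tor Λ tor) : tmap tor g (c • z) = g c • tmap tor g z := by
  rw [Algebra.smul_def, Algebra.smul_def, map_mul]
  congr 1
  simp [tmap]

theorem tmap_ofPoly (f : MvPolynomial σ ℤ) : tmap tor g (ofPoly tor Λ f) = ofPoly tor Λ' f := by
  have : (tmap tor g).comp (ofPoly tor Λ) = ofPoly tor Λ' := by
    refine MvPolynomial.ringHom_ext (fun c => by simp [ofPoly]) fun i => ?_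
    simp [ofPoly, tX, tmap_mono]
  exact DFunLike.congr_fun this f

theorem tmap_pd (i : σ) (a : Tor Λ tor) :
    tmap tor g (pd tor Λ i a) = pd tor Λ' i (tmap tor g a) := by
  induction a using mono_ind with
  | h0 => simp
  | hadd a a' h1 h2 => simp only [map_add, h1, h2]
  | hm c u hu =>
    simp only [map_smul, tmap_smul, tmap_mono, pd_mono tor i hu, map_intCast]

theorem tmap_phi0 (p : ℕ) (a : Tor Λ tor) :
    tmap tor g (phi0 tor Λ p a) = phi0 tor Λ' p (tmap tor g a) := by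
  induction a using mono_ind with
  | h0 => simp
  | hadd a a' h1 h2 => simp only [map_add, h1, h2]
  | hm c u hu => simp only [map_smul, tmap_smul, tmap_mono, phi0_mono tor p hu]

theorem tmap_psi0 (p : ℕ) (a : Tor Λ tor) :
    tmap tor g (psi0 tor Λ p a) = psi0 tor Λ' p (tmap tor g a) := by
  induction a using mono_ind with
  | h0 => simp
  | hadd a a' h1 h2 => simp only [map_add, h1, h2]
  | hm c u hu =>
    simp only [map_smul, tmap_smul, tmap_mono, psi0_mono tor p hu]
    split_ifs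
    · rw [tmap_mono]
    · rw [map_zero]

end Map

section Weight
variable [Fintype σ] {I Γ : Type} [AddCommGroup Γ] (cv : I → σ) (wt : σ → Γ) (J : Finset I)

theorem wt_single (i : σ) : ∑ x, (Pi.single i 1 : σ → ℤ) x • wt x = wt i := by
  rw [Finset.sum_eq_single i]
  · simp
  · intro l _ hl; simp [hl]
  · simp

theorem one_Tp : 1 ∈ Tp tor cv wt Λ J 0 := by
  rw [← monoZ_zero]
  exact monoZ_supp tor fun _ => ⟨fun _ _ => le_rfl, by simp⟩

theorem tX_Tp (i : σ) : tX tor Λ i ∈ Tp tor cv wt Λ J (wt i) := by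
  refine monoZ_supp tor fun _ => ⟨fun v _ => ?_, wt_single wt i⟩
  by_cases h : cv v = i
  · simp [h]
  · simp [h]

theorem mul_Tp (w w' : Γ) (a b : Tor Λ tor) (ha : a ∈ Tp tor cv wt Λ J w)
    (hb : b ∈ Tp tor cv wt Λ J w') : a * b ∈ Tp tor cv wt Λ J (w + w') := by
  refine map_supp tor (LinearMap.mulRight Λ b) _ (fun u hu hP => ?_) ha
  refine map_supp tor (LinearMap.mulLeft Λ (monoZ tor Λ u)) _ (fun v hv hQ => ?_) hb
  rw [LinearMap.mulLeft_apply, monoZ_mul tor hu hv]
  refine monoZ_supp tor fun _ => ⟨fun x hx => add_nonneg (hP.1 x hx) (hQ.1 x hx), ?_⟩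
  rw [← hP.2, ← hQ.2, ← Finset.sum_add_distrib]
  exact Finset.sum_congr rfl fun x _ => add_smul _ _ _

theorem pd_Tp (w : Γ) (i : σ) (a : Tor Λ tor) (ha : a ∈ Tp tor cv wt Λ J w) :
    pd tor Λ i a ∈ Tp tor cv wt Λ J (w - wt i) := by
  refine map_supp tor (pd tor Λ i) _ (fun u hu hP => ?_) ha
  rw [pd_mono tor i hu]
  by_cases h : u i = 0
  · rw [h, Int.cast_zero, zero_smul]; exact Submodule.zero_mem _
  · refine Submodule.smul_mem _ _ (monoZ_supp tor fun _ => ⟨fun x hx => ?_, ?_⟩)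
    · have := hP.1 x hx
      by_cases hx' : cv x = i
      · rw [hx'] at this ⊢
        simp; omega
      · simpa [hx'] using this
    · rw [← hP.2, ← wt_single wt i, ← Finset.sum_sub_distrib]
      exact Finset.sum_congr rfl fun x _ => sub_smul _ _ _

theorem phi0_Tp (w : Γ) (p : ℕ) (a : Tor Λ tor) (ha : a ∈ Tp tor cv wt Λ J w) :
    phi0 tor Λ p a ∈ Tp tor cv wt Λ J (p • w) := by
  refine map_supp tor (phi0 tor Λ p).toLinearMap _ (fun u hu hP => ?_) ha
  rw [AlgHom.toLinearMap_apply, phi0_mono tor p hu]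
  refine monoZ_supp tor fun _ => ⟨fun x hx => nsmul_nonneg (hP.1 x hx) p, ?_⟩
  rw [← hP.2, Finset.smul_sum]
  exact Finset.sum_congr rfl fun x _ => by rw [Pi.smul_apply, smul_assoc]

theorem psi0_Tp (w : Γ) {p : ℕ} (hp : 1 ≤ p) (ht : ∀ g : Γ, p • g = 0 → g = 0) (a : Tor Λ tor)
    (ha : a ∈ Tp tor cv wt Λ J (p • w - ∑ x, wt x)) :
    psi0 tor Λ p a ∈ Tp tor cv wt Λ J (w - ∑ x, wt x) := by
  refine map_supp tor (psi0 tor Λ p) _ (fun u hu hP => ?_) ha
  rw [psi0_mono tor p hu]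
  split_ifs with h
  · refine monoZ_supp tor fun _ => ⟨fun x hx => quo_nonneg hp (hP.1 x hx) (h _), ?_⟩
    have h1 : ∑ x, ((u x + 1) / p) • wt x = w := by
      rw [← sub_eq_zero]
      apply ht
      rw [smul_sub, Finset.smul_sum, sub_eq_zero, eq_add_of_sub_eq hP.2.symm,
        ← Finset.sum_add_distrib]
      refine Finset.sum_congr rfl fun x _ => ?_
      rw [← natCast_zsmul, smul_smul, Int.mul_ediv_cancel' (h x), add_smul, one_smul]
    rw [← h1, ← Finset.sum_sub_distrib]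
    exact Finset.sum_congr rfl fun x _ => by rw [sub_smul, one_smul]
  · exact Submodule.zero_mem _

end Weight

end Basic

theorem s1 : S1 := by
  intro Λ σ _ _ _ tor
  refine ⟨leibniz tor, pd_tX tor, pd_comm tor, phi0_tX tor, fun p hp => pd_phi0 tor hp,
    fun p hp => psi0_phi0 tor hp, fun p hp => psi0_pd tor hp, fun Λ' _ g => ?_,
    fun I Γ _ cv wt J => ?_⟩
  · exact ⟨fun i => tmap_mono tor g _, fun i => tmap_mono tor g _, tmap_ofPoly tor g,
      tmap_pd tor g, tmap_phi0 tor g, tmap_psi0 tor g⟩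
  · exact ⟨one_Tp tor cv wt J, tX_Tp tor cv wt J, mul_Tp tor cv wt J, pd_Tp tor cv wt J,
      phi0_Tp tor cv wt J, fun w p hp ht => psi0_Tp tor cv wt J w hp ht⟩

end Pool.Agent.MP_ea150c_mp.H15
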