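import Pool.Agent.MP_ea150c_mp.H49.SpecV

/-! The class `cc` is a nontrivial cocycle on a covering family. -/

namespace Pool.Agent.MP_ea150c_mp.H15

open Finset H49 MvPolynomial

noncomputable section

section Cup
variable {L Λ Λ' : Type} [Field L] [LinearOrder Λ] [LinearOrder Λ']

/-- The cup product of two coboundaries. -/
def cup (n n' : Λ → L) (J : Finset Λ) : L :=
  if h : J.card = 3 then (n (J.orderEmbOfFin h 0) - n (J.orderEmbOfFin h 1)) *
    (n' (J.orderEmbOfFin h 1) - n' (J.orderEmbOfFin h 2)) else 0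

theorem cup_map (e : Λ' ↪o Λ) (n n' : Λ → L) (J : Finset Λ') :
    cup n n' (J.map e.toEmbedding) = cup (n ∘ e) (n' ∘ e) J := by
  unfold cup
  by_cases h : J.card = 3
  · have h' : (J.map e.toEmbedding).card = 3 := by rwa [card_map]
    have := orderEmbOfFin_unique h' (f := fun i => e (J.orderEmbOfFin h i))
      (fun i => mem_map_of_mem _ (orderEmbOfFin_mem _ _ _))
      (e.strictMono.comp (J.orderEmbOfFin h).strictMono)
    rw [dif_pos h, dif_pos h', ← this]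
    rfl
  · rw [dif_neg h, dif_neg (by rwa [card_map])]

theorem cup_three (n n' : Λ → L) {a b c : Λ} (hab : a < b) (hbc : b < c) :
    cup n n' {a, b, c} = (n a - n b) * (n' b - n' c) := by
  have h : ({a, b, c} : Finset Λ).card = 3 :=
    card_eq_three.2 ⟨a, b, c, hab.ne, (hab.trans hbc).ne, hbc.ne, rfl⟩
  have e : (![a, b, c] : Fin 3 → Λ) = ({a, b, c} : Finset Λ).orderEmbOfFin h :=
    orderEmbOfFin_unique h (fun x => by fin_cases x <;> simp)
      (Fin.strictMono_iff_lt_succ.2 fun x => by fin_cases x <;> simp [hab, hbc])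
  rw [cup, dif_pos h, ← e]
  rfl

theorem dl_app (x : Finset Λ → L) (J : Finset Λ) :
    dl L L x J = ∑ j ∈ J, (-1) ^ (J.filter (· < j)).card * x (J.erase j) := rfl

theorem dl_four (x : Finset (Fin 4) → L) :
    dl L L x univ = x {1, 2, 3} - x {0, 2, 3} + x {0, 1, 3} - x {0, 1, 2} := by
  rw [dl_app, Fin.sum_univ_four, show (univ : Finset (Fin 4)).erase 0 = {1, 2, 3} by decide,
    show (univ : Finset (Fin 4)).erase 1 = {0, 2, 3} by decide,
    show (univ : Finset (Fin 4)).erase 2 = {0, 1, 3} by decide,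
    show (univ : Finset (Fin 4)).erase 3 = {0, 1, 2} by decide,
    show ((univ : Finset (Fin 4)).filter (· < 0)).card = 0 by decide,
    show ((univ : Finset (Fin 4)).filter (· < 1)).card = 1 by decide,
    show ((univ : Finset (Fin 4)).filter (· < 2)).card = 2 by decide,
    show ((univ : Finset (Fin 4)).filter (· < 3)).card = 3 by decide]
  ring

theorem dl_03 (x : Finset (Fin 4) → L) (b : Fin 4) (hb : b = 1 ∨ b = 2) :
    dl L L x {0, b, 3} = x {b, 3} - x {0, 3} + x {0, b} := by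
  have h : ∀ b : Fin 4, b = 1 ∨ b = 2 → 0 ∉ ({b, 3} : Finset (Fin 4)) ∧ b ≠ 3 ∧
      ({0, b, 3} : Finset (Fin 4)).erase 0 = {b, 3} ∧
      ({0, b, 3} : Finset (Fin 4)).erase b = {0, 3} ∧
      ({0, b, 3} : Finset (Fin 4)).erase 3 = {0, b} ∧
      (({0, b, 3} : Finset (Fin 4)).filter (· < 0)).card = 0 ∧
      (({0, b, 3} : Finset (Fin 4)).filter (· < b)).card = 1 ∧
      (({0, b, 3} : Finset (Fin 4)).filter (· < 3)).card = 2 := by decide
  obtain ⟨h1, h2, h3, h4, h5, h6, h7, h8⟩ := h b hb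
  rw [dl_app, sum_insert h1, sum_pair h2, h3, h4, h5, h6, h7, h8]
  ring

theorem dl_cup (vt : VT) (n n' : Λ → L) : dl L L (cup n n') = 0 := by
  funext J
  by_cases h : J.card = 4
  · have e : J = univ.map (J.orderEmbOfFin h).toEmbedding := (map_orderEmbOfFin_univ J h).symm
    rw [e, vt.2, dl_four]
    simp only [cup_map]
    rw [cup_three _ _ (by decide) (by decide), cup_three _ _ (by decide) (by decide),
      cup_three _ _ (by decide) (by decide), cup_three _ _ (by decide) (by decide), Pi.zero_apply]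
    ring
  · refine sum_eq_zero fun j hj => ?_
    have := card_erase_add_one hj
    rw [cup, dif_neg (by omega), smul_zero]

end Cup

section Loc
variable {S L Λ Λ' : Type} [CommRing S] [Field L] [Algebra S L] (g : Λ → S)

theorem alg_mem (J : Finset Λ) (a : S) : algebraMap S L a ∈ Loc L g J := ⟨0, a, by simp⟩

theorem inv_mem' {J : Finset Λ} {i : Λ} (hi : i ∈ J) (h : algebraMap S L (g i) ≠ 0) :
    (algebraMap S L (g i))⁻¹ ∈ Loc L g J := by
  classical
  refine ⟨1, ∏ j ∈ J.erase i, g j, ?_⟩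
  rw [← mul_prod_erase J g hi, map_mul, pow_one, mul_right_comm, mul_inv_cancel₀ h, one_mul]

theorem loc_map (e : Λ' ↪ Λ) (J : Finset Λ') : Loc L g (J.map e) = Loc L (g ∘ e) J := by
  ext z
  change (∃ N a, _) ↔ ∃ N a, _
  rw [prod_map]
  rfl

end Loc

variable {K : Type} [Field K]

theorem gS_ne (Y : Fin 4 → K) (h : Y ≠ 0) : algebraMap (SR K) (LR K) (gS Y) ≠ 0 := by
  rw [map_ne_zero_iff _ (IsFractionRing.injective (SR K) (LR K))]
  intro h0
  have h1 := congrArg (eval ![1, 0, 1, 0]) h0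
  have h2 := congrArg (eval ![1, 0, 0, 1]) h0
  have h3 := congrArg (eval ![0, 1, 1, 0]) h0
  have h4 := congrArg (eval ![0, 1, 0, 1]) h0
  simp [gS] at h1 h2 h3 h4
  exact h (funext fun i => by fin_cases i <;> assumption)

theorem sv_ne (i : Fin 4) : sv K i ≠ 0 :=
  (map_ne_zero_iff _ (IsFractionRing.injective (SR K) (LR K))).2 (X_ne_zero i)

theorem alg_C (c : K) : algebraMap (SR K) (LR K) (C c) = algebraMap K (LR K) c :=
  (IsScalarTower.algebraMap_apply K (SR K) (LR K) c).symm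

theorem alg_X (i : Fin 4) : algebraMap (SR K) (LR K) (X i) = sv K i := rfl

/-- The first chart function. -/
def nn (Y : Fin 4 → K) : LR K := fr Y 2 / fr Y 0

/-- The second chart function. -/
def nn' (Y : Fin 4 → K) : LR K := fr Y 1 / fr Y 0

theorem ccL_eq {Λ : Type} [LinearOrder Λ] (Y : Λ → Fin 4 → K) :
    ccL Y = cup (nn ∘ Y) (nn' ∘ Y) := rfl

theorem nn_sub (Y Z : Fin 4 → K) (hY : Y ≠ 0) (hZ : Z ≠ 0) : ∃ a b : SR K,
    nn Y - nn Z = algebraMap _ _ a * (algebraMap _ _ (gS Y))⁻¹ * (algebraMap _ _ (gS Z))⁻¹ ∧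
    nn' Y - nn' Z = algebraMap _ _ b * (algebraMap _ _ (gS Y))⁻¹ * (algebraMap _ _ (gS Z))⁻¹ := by
  have h1 := gS_ne Y hY
  have h2 := gS_ne Z hZ
  have h3 := sv_ne (K := K) 0
  have h4 := sv_ne (K := K) 2
  refine ⟨(X 2 * C (Y 2) - X 3 * C (Y 3)) * (X 2 * C (Z 0) + X 3 * C (Z 1)) -
      (X 2 * C (Z 2) - X 3 * C (Z 3)) * (X 2 * C (Y 0) + X 3 * C (Y 1)),
    (X 0 * C (Y 1) + X 1 * C (Y 3)) * (X 0 * C (Z 0) - X 1 * C (Z 2)) -
      (X 0 * C (Z 1) + X 1 * C (Z 3)) * (X 0 * C (Y 0) - X 1 * C (Y 2)), ?_, ?_⟩ <;>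
  · simp only [nn, nn', fr, Matrix.cons_val]
    field_simp
    simp only [gS, map_add, map_sub, map_mul, alg_C, alg_X]
    ring

theorem cc_loc {Λ : Type} [LinearOrder Λ] (Y : Λ → Fin 4 → K) (hY : ∀ i, Y i ≠ 0) (J : Finset Λ) :
    ccL Y J ∈ Loc (LR K) (fun i => gS (Y i)) J := by
  rw [ccL_eq, cup]
  split_ifs with h
  · have h1 := fun r : Fin 3 => inv_mem' (L := LR K) (fun i => gS (Y i))
      (orderEmbOfFin_mem J h r) (gS_ne _ (hY _))
    obtain ⟨a, -, ha, -⟩ := nn_sub _ _ (hY (J.orderEmbOfFin h 0)) (hY (J.orderEmbOfFin h 1))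
    obtain ⟨-, b, -, hb⟩ := nn_sub _ _ (hY (J.orderEmbOfFin h 1)) (hY (J.orderEmbOfFin h 2))
    simp only [Function.comp, ha, hb]
    exact mul_mem (mul_mem (mul_mem (alg_mem _ _ _) (h1 0)) (h1 1))
      (mul_mem (mul_mem (alg_mem _ _ _) (h1 1)) (h1 2))
  · exact zero_mem _

/-- The four basis matrices. -/
def Eb (K : Type) [Field K] : Fin 4 → Fin 4 → K :=
  ![![1, 0, 0, 0], ![0, 1, 0, 0], ![0, 0, 1, 0], ![0, 0, 0, 1]]

theorem clear {J : Finset (Fin 4)} {w : LR K} (hw : w ∈ Loc (LR K) (fun i => gS (Eb K i)) J)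
    (i : Fin 4) (u c : SR K) (h1 : X 0 * X 1 * X 2 * X 3 = X i * u)
    (h2 : (∏ j ∈ J, gS (Eb K j)) * c = u ^ 2) : ∃ N, ∀ M ≥ N, ∃ a : SR K,
      algebraMap (SR K) (LR K) ((X 0 * X 1 * X 2 * X 3) ^ M) * w =
        algebraMap (SR K) (LR K) (X i ^ M * a) := by
  obtain ⟨N, a, ha⟩ := hw
  refine ⟨2 * N, fun M hM => ⟨u ^ (M - 2 * N) * c ^ N * a, ?_⟩⟩
  obtain ⟨r, rfl⟩ := Nat.exists_eq_add_of_le hM
  rw [h1, mul_pow, pow_add u, pow_mul, ← h2, Nat.add_sub_cancel_left]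
  simp only [map_mul, map_pow, ← ha, mul_pow]
  ring

theorem basis_case (γ : K) (w : Finset (Fin 4) → LR K)
    (hw : ∀ J, w J ∈ Loc (LR K) (fun i => gS (Eb K i)) J)
    (h : ∀ J, algebraMap K (LR K) γ * ccL (Eb K) J = dl (LR K) (LR K) w J) : γ = 0 := by
  have h1 := h {0, 1, 3}
  have h2 := h {0, 2, 3}
  rw [dl_03 _ _ (by simp), ccL_eq, cup_three _ _ (by decide) (by decide)] at h1 h2
  have s0 := sv_ne (K := K) 0
  have s1 := sv_ne (K := K) 1
  have s2 := sv_ne (K := K) 2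
  have s3 := sv_ne (K := K) 3
  have h3 : algebraMap K (LR K) γ = sv K 0 * sv K 1 * sv K 2 * sv K 3 *
      (w {1, 3} + w {0, 1} - w {2, 3} - w {0, 2}) := by
    rw [show w {1, 3} + w {0, 1} - w {2, 3} - w {0, 2} =
      (w {1, 3} - w {0, 3} + w {0, 1}) - (w {2, 3} - w {0, 3} + w {0, 2}) by ring, ← h1, ← h2]
    simp [nn, nn', fr, Eb, gS, alg_X]
    field_simp
  obtain ⟨N1, a1⟩ := clear (hw {1, 3}) 2 (X 0 * X 1 * X 3) (X 0 * X 1) (by ring)
    (by simp [Eb, gS]; ring)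
  obtain ⟨N2, a2⟩ := clear (hw {0, 1}) 1 (X 0 * X 2 * X 3) (X 2 * X 3) (by ring)
    (by simp [Eb, gS]; ring)
  obtain ⟨N3, a3⟩ := clear (hw {2, 3}) 0 (X 1 * X 2 * X 3) (-(X 2 * X 3)) (by ring)
    (by simp [Eb, gS]; ring)
  obtain ⟨N4, a4⟩ := clear (hw {0, 2}) 3 (X 0 * X 1 * X 2) (-(X 0 * X 1)) (by ring)
    (by simp [Eb, gS]; ring)
  obtain ⟨M, hM⟩ : ∃ M, M = N1 + N2 + N3 + N4 := ⟨_, rfl⟩
  obtain ⟨b1, a1⟩ := a1 (M + 1) (by omega)
  obtain ⟨b2, a2⟩ := a2 (M + 1) (by omega)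
  obtain ⟨b3, a3⟩ := a3 (M + 1) (by omega)
  obtain ⟨b4, a4⟩ := a4 (M + 1) (by omega)
  have h4 : (C γ * (X 0 * X 1 * X 2 * X 3) ^ M : SR K) =
      X 2 ^ (M + 1) * b1 + X 1 ^ (M + 1) * b2 - X 0 ^ (M + 1) * b3 - X 3 ^ (M + 1) * b4 := by
    apply IsFractionRing.injective (SR K) (LR K)
    rw [map_sub, map_sub, map_add, ← a1, ← a2, ← a3, ← a4, map_mul, alg_C, h3]
    simp only [map_mul, map_pow, alg_X]
    ring
  let m : Fin 4 →₀ ℕ := Finsupp.single 0 M + Finsupp.single 1 M + Finsupp.single 2 M +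
    Finsupp.single 3 M
  have h5 : ∀ (i : Fin 4) (b : SR K), coeff m (X i ^ (M + 1) * b) = 0 := fun i b => by
    rw [X_pow_eq_monomial, coeff_monomial_mul', if_neg]
    rw [Finsupp.single_le_iff]
    fin_cases i <;> simp [m]
  have h6 := congrArg (coeff m) h4
  rw [coeff_sub, coeff_sub, coeff_add, h5, h5, h5, h5] at h6
  simpa [mul_pow, X_pow_eq_monomial, monomial_mul, m] using h6

theorem gS_span {Λ : Type} (Y : Λ → Fin 4 → K) (I : Ideal (SR K)) (h : ∀ i, gS (Y i) ∈ I)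
    (Z : Fin 4 → K) (hZ : Z ∈ Submodule.span K (Set.range Y)) : gS Z ∈ I := by
  induction hZ using Submodule.span_induction with
  | mem x hx =>
    obtain ⟨i, rfl⟩ := hx
    exact h i
  | zero => simp [gS]
  | add x y _ _ hx hy =>
    rw [show gS (x + y) = gS x + gS y by simp only [gS, Pi.add_apply, map_add]; ring]
    exact I.add_mem hx hy
  | smul c x _ hx =>
    rw [show gS (c • x) = C c * gS x by simp only [gS, Pi.smul_apply, smul_eq_mul, map_mul]; ring]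
    exact I.mul_mem_left _ hx

theorem rad_mem (I : Ideal (SR K)) (g1 : gS (K := K) ![1, 0, 0, 0] ∈ I)
    (g2 : gS (K := K) ![0, 0, 0, 1] ∈ I) (g3 : gS (K := K) ![0, 1, -1, 0] ∈ I) (i : Fin 4) :
    gS (Eb K i) ^ 2 ∈ I := by
  fin_cases i
  · exact I.pow_mem_of_mem g1 2 two_pos
  · convert I.sub_mem (I.mul_mem_left (X 0 * X 3) g3) (I.mul_mem_left (X 0 * X 2) g2) using 1
    simp [gS, Eb]
    ring
  · convert I.sub_mem (I.mul_mem_left (X 1 * X 2) g3) (I.mul_mem_left (X 0 * X 2) g2) using 1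
    simp [gS, Eb]
    ring
  · exact I.pow_mem_of_mem g2 2 two_pos

theorem Eb_ne (i : Fin 4) : Eb K i ≠ 0 := by
  intro h
  have := congrFun h i
  fin_cases i <;> simp [Eb] at this

theorem ccL_map {Λ Λ' : Type} [LinearOrder Λ] [LinearOrder Λ'] (e : Λ' ↪o Λ) (Y : Λ → Fin 4 → K)
    (J : Finset Λ') : ccL Y (J.map e.toEmbedding) = ccL (Y ∘ e) J := by
  rw [ccL_eq, ccL_eq, cup_map]
  rfl

theorem vnt (vt : VT) : VNT := by
  intro K Λ _ _ _
  refine ⟨gS_ne, fun Y hY => ⟨cc_loc Y hY, by rw [ccL_eq, dl_cup vt],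
    fun h1 h2 h3 γ ⟨z, hz, hd⟩ => ?_⟩⟩
  classical
  let Y' : Λ ⊕ₗ Fin 4 → Fin 4 → K := fun κ => Sum.elim Y (Eb K) (ofLex κ)
  let e : Λ ↪o Λ ⊕ₗ Fin 4 := .ofStrictMono (fun i => toLex (.inl i)) Sum.Lex.inl_strictMono
  let e' : Fin 4 ↪o Λ ⊕ₗ Fin 4 := .ofStrictMono (fun i => toLex (.inr i)) Sum.Lex.inr_strictMono
  have hY' : ∀ κ, Y' κ ≠ 0 := by
    rintro (i | i)
    exacts [hY i, Eb_ne i]
  have hinj := map_injective e.toEmbedding
  have hr : ∀ κ, gS (Y' κ) ∈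
      (Ideal.span ((fun κ => gS (Y' κ)) '' (univ.map e.toEmbedding : Finset _))).radical := by
    set I := Ideal.span ((fun κ => gS (Y' κ)) '' (univ.map e.toEmbedding : Finset _))
    have hI : ∀ i, gS (Y i) ∈ I := fun i =>
      Ideal.subset_span ⟨e i, mem_coe.2 (mem_map_of_mem _ (mem_univ i)), rfl⟩
    rintro (i | i)
    · exact Ideal.le_radical (hI i)
    · exact ⟨2, rad_mem I (gS_span Y I hI _ h1) (gS_span Y I hI _ h2) (gS_span Y I hI _ h3) i⟩
  have hc : CobOn (LR K) (fun κ => gS (Y' κ)) (univ.map e.toEmbedding)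
      fun J => algebraMap K (LR K) γ * ccL Y' J := by
    refine ⟨Function.extend (map e.toEmbedding) z 0, fun J => ?_, fun J hJ => ?_⟩
    · by_cases h : ∃ J', map e.toEmbedding J' = J
      · obtain ⟨J', rfl⟩ := h
        rw [hinj.extend_apply, loc_map]
        exact hz J'
      · rw [Function.extend_apply' _ _ _ h]
        exact zero_mem _
    · obtain ⟨J', -, rfl⟩ := subset_map_iff.1 hJ
      simp only [vt.2, ccL_map, hinj.extend_apply]
      exact hd J' (subset_univ _)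
  obtain ⟨w, hw, hw'⟩ := vt.1 (SR K) (LR K) _ (fun κ => gS (Y' κ)) (univ.map e.toEmbedding)
    (fun κ => gS_ne _ (hY' κ)) hr (fun J => algebraMap K (LR K) γ * ccL Y' J)
    (fun J => mul_mem (alg_C γ ▸ alg_mem _ _ _) (cc_loc Y' hY' J))
    (((dl (LR K) (LR K)).map_smul (algebraMap K (LR K) γ) (ccL Y')).trans
      (by rw [ccL_eq, dl_cup vt, smul_zero])) hc
  refine basis_case γ (fun J => w (J.map e'.toEmbedding)) (fun J => ?_) fun J => ?_
  · have := hw (J.map e'.toEmbedding)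
    rwa [loc_map] at this
  · have := hw' (J.map e'.toEmbedding) (subset_univ _)
    simp only [vt.2, ccL_map] at this
    exact this

end

end Pool.Agent.MP_ea150c_mp.H15
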